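import Pool.Agent.Helper55.PC.Base

/-!
# Blocks B13 of the pre-cutoff counterexample: `kill` and `const_of_chars`
-/

namespace Pool.Agent.Helper55.PC

open Finset
open scoped Classical

theorem kill (t : ℕ) (i : Fin 7) (hi : i ≠ 0) (v : ℕ → (ℕ → Slot) → ZMod 2)
    (hv : ∀ s η w, v s (rs i η w) = v s w) (G : (ℕ → Slot) → ℝ) (hG : ∀ η w, G (rs i η w) = G w) :
    Ex t (fun w => sg (∑ s ∈ range t, if w s = (i, true) then v s w else 0) * G w) =
    Ex t (fun w => (if ∃ s < t, (w s).1 = i ∧ v s w ≠ 0 then 0 else 1) * G w) := by
  have one_of_ne : ∀ z : ZMod 2, z ≠ 0 → z = 1 := by decide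
  have sg_one : sg 1 = -1 := by
    have : (1 : ZMod 2) ≠ 0 := by decide
    simp [sg, this]
  -- the killing event and its first time
  let A : ℕ → (ℕ → Slot) → Prop := fun s w => (w s).1 = i ∧ v s w ≠ 0
  let B : ℕ → (ℕ → Slot) → Prop := fun s w => A s w ∧ ∀ u < s, ¬ A u w
  have hAr : ∀ s η w, A s (rs i η w) ↔ A s w := by
    intro s η w
    simp only [A, hv, rs_fst]
  have hBr : ∀ s η w, B s (rs i η w) ↔ B s w := by
    intro s η w
    simp only [B, hAr]
  let f : (ℕ → Slot) → ℝ := fun w =>
    sg (∑ s ∈ range t, if w s = (i, true) then v s w else 0) * G w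
  have key : ∀ s < t, Ex t (fun w => if B s w then f w else 0) = 0 := by
    intro s hs
    let η : ℕ → Bool := fun u => decide (u = s)
    have h1 := Ex_rs (t := t) hi η (fun w => if B s w then f w else 0)
    have h2 : ∀ w, (if B s (rs i η w) then f (rs i η w) else 0) =
        -(if B s w then f w else 0) := by
      intro w
      by_cases hB : B s w
      · rw [if_pos ((hBr s η w).2 hB), if_pos hB]
        have hws : (w s).1 = i := hB.1.1
        have hvs : v s w = 1 := one_of_ne _ hB.1.2
        have hsum : (∑ u ∈ range t, if rs i η w u = (i, true) then v u (rs i η w) else 0) =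
            (∑ u ∈ range t, if w u = (i, true) then v u w else 0) + 1 := by
          rw [← Finset.add_sum_erase _ _ (mem_range.2 hs),
            ← Finset.add_sum_erase (range t) (fun u => if w u = (i, true) then v u w else 0)
              (mem_range.2 hs)]
          have e1 : ∀ u ∈ (range t).erase s,
              (if rs i η w u = (i, true) then v u (rs i η w) else 0) =
              (if w u = (i, true) then v u w else 0) := by
            intro u hu
            have hus : u ≠ s := (Finset.mem_erase.1 hu).1
            have : rs i η w u = w u := by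
              unfold rs
              split_ifs with h
              · have : η u = false := by simp [η, hus]
                rw [this, Bool.xor_false]
              · rfl
            rw [this, hv]
          rw [Finset.sum_congr rfl e1]
          have e2 : rs i η w s = (i, !(w s).2) := by
            unfold rs
            rw [if_pos hws]
            have : η s = true := by simp [η]
            rw [this, Bool.xor_true, hws]
          have e3 : w s = (i, (w s).2) := Prod.ext hws rfl
          have e4 : (if rs i η w s = (i, true) then v s (rs i η w) else 0) =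
              (if w s = (i, true) then v s w else 0) + 1 := by
            rw [e2, hv, hvs]
            rw [e3]
            cases h : (w s).2
            · simp
            · simp only [Bool.not_true, Prod.mk.injEq, Bool.false_eq_true, and_false, if_false,
                if_true]
              decide
          rw [e4]
          ring
        simp only [f]
        rw [hsum, sg_add, sg_one, hG]
        ring
      · rw [if_neg (fun h => hB ((hBr s η w).1 h)), if_neg hB, neg_zero]
    have h3 : Ex t (fun w => (if B s (rs i η w) then f (rs i η w) else 0)) =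
        - Ex t (fun w => if B s w then f w else 0) := by
      simp only [h2]
      rw [Ex_neg]
    rw [h3] at h1
    linarith
  have split : ∀ w, f w = (∑ s ∈ range t, if B s w then f w else 0) +
      (if ∃ s < t, (w s).1 = i ∧ v s w ≠ 0 then 0 else 1) * G w := by
    intro w
    by_cases hE : ∃ s < t, (w s).1 = i ∧ v s w ≠ 0
    · rw [if_pos hE, zero_mul, add_zero]
      have hE' : ∃ s, s < t ∧ A s w := hE
      have hex : ∃ s, A s w := ⟨_, hE'.choose_spec.2⟩
      obtain ⟨s1, hs1, hA1⟩ := hE'
      set s0 := Nat.find hex with hs0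
      have h0 : A s0 w := Nat.find_spec hex
      have hmin : ∀ u < s0, ¬ A u w := fun u hu => Nat.find_min hex hu
      have hs0t : s0 < t := lt_of_le_of_lt (Nat.find_min' hex hA1) hs1
      have hB0 : B s0 w := ⟨h0, hmin⟩
      rw [Finset.sum_eq_single_of_mem s0 (mem_range.2 hs0t), if_pos hB0]
      intro u _ hu
      rw [if_neg]
      rintro ⟨hu1, hu2⟩
      rcases lt_trichotomy u s0 with h | h | h
      · exact hmin u h hu1
      · exact hu h
      · exact hu2 s0 h h0
    · rw [if_neg hE, one_mul]
      have hno : ∀ s ∈ range t, (if B s w then f w else 0) = 0 := by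
        intro s hs
        rw [if_neg]
        rintro ⟨h1, -⟩
        exact hE ⟨s, mem_range.1 hs, h1⟩
      rw [Finset.sum_eq_zero hno, zero_add]
      have hz : (∑ s ∈ range t, if w s = (i, true) then v s w else 0) = 0 := by
        refine Finset.sum_eq_zero fun s hs => ?_
        split_ifs with h
        · by_contra hne
          exact hE ⟨s, mem_range.1 hs, by rw [h], hne⟩
        · rfl
      simp only [f]
      rw [hz, sg_zero, one_mul]
  calc Ex t (fun w => sg (∑ s ∈ range t, if w s = (i, true) then v s w else 0) * G w)
      = Ex t (fun w => (∑ s ∈ range t, if B s w then f w else 0) +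
      (if ∃ s < t, (w s).1 = i ∧ v s w ≠ 0 then 0 else 1) * G w) := by
        congr 1
        funext w
        exact split w
    _ = Ex t (fun w => ∑ s ∈ range t, if B s w then f w else 0) +
        Ex t (fun w => (if ∃ s < t, (w s).1 = i ∧ v s w ≠ 0 then 0 else 1) * G w) := Ex_add _ _
    _ = _ := by
        rw [Ex_sum, Finset.sum_eq_zero (fun s hs => key s (mem_range.1 hs)), zero_add]

theorem const_of_chars {V : Type} [AddCommGroup V] [Fintype V] (h2 : ∀ v : V, v + v = 0)
    (f : V → ℝ) (hf : ∀ χ : V →+ ZMod 2, χ ≠ 0 → ∑ v, sg (χ v) * f v = 0) (v v' : V) :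
    f v = f v' := by
  have sg_one : sg 1 = -1 := by
    have : (1 : ZMod 2) ≠ 0 := by decide
    simp [sg, this]
  have one_of_ne : ∀ z : ZMod 2, z ≠ 0 → z = 1 := by decide
  have hp : Fact (Nat.Prime 2) := ⟨Nat.prime_two⟩
  let mod2 : Module (ZMod 2) V :=
    AddCommGroup.zmodModule (n := 2) (fun x => by rw [two_nsmul]; exact h2 x)
  have fin1 : Finite (V →+ ZMod 2) :=
    Finite.of_injective (fun χ : V →+ ZMod 2 => (χ : V → ZMod 2)) DFunLike.coe_injective
  let fty : Fintype (V →+ ZMod 2) := Fintype.ofFinite _
  have hsep : ∀ x : V, x ≠ 0 → ∑ χ : V →+ ZMod 2, sg (χ x) = 0 := by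
    intro x hx
    obtain ⟨φ, hφ⟩ : ∃ φ : Module.Dual (ZMod 2) V, φ x ≠ 0 := by
      by_contra h
      push Not at h
      exact hx ((Module.forall_dual_apply_eq_zero_iff (ZMod 2) x).1 h)
    let χ0 : V →+ ZMod 2 := φ.toAddMonoidHom
    have hχ0 : χ0 x = 1 := one_of_ne _ hφ
    have h1 : ∑ χ : V →+ ZMod 2, sg (χ x) = ∑ χ : V →+ ZMod 2, sg ((χ + χ0) x) := by
      rw [← Equiv.sum_comp (Equiv.addRight χ0)]
      rfl
    have h3 : ∑ χ : V →+ ZMod 2, sg ((χ + χ0) x) = - ∑ χ : V →+ ZMod 2, sg (χ x) := by
      rw [← Finset.sum_neg_distrib]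
      refine Finset.sum_congr rfl fun χ _ => ?_
      rw [AddMonoidHom.add_apply, sg_add, hχ0, sg_one]
      ring
    rw [h3] at h1
    linarith
  have inv : ∀ x : V, (Fintype.card (V →+ ZMod 2) : ℝ) * f x = ∑ y, f y := by
    intro x
    have h1 : ∑ χ : V →+ ZMod 2, sg (χ x) * ∑ y, sg (χ y) * f y =
        (Fintype.card (V →+ ZMod 2) : ℝ) * f x := by
      calc ∑ χ : V →+ ZMod 2, sg (χ x) * ∑ y, sg (χ y) * f y
          = ∑ χ : V →+ ZMod 2, ∑ y, sg (χ (x + y)) * f y := by
            refine Finset.sum_congr rfl fun χ _ => ?_
            rw [Finset.mul_sum]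
            refine Finset.sum_congr rfl fun y _ => ?_
            rw [map_add, sg_add]; ring
        _ = ∑ y, (∑ χ : V →+ ZMod 2, sg (χ (x + y))) * f y := by
            rw [Finset.sum_comm]
            refine Finset.sum_congr rfl fun y _ => ?_
            rw [Finset.sum_mul]
        _ = (∑ χ : V →+ ZMod 2, sg (χ (x + x))) * f x := by
            refine Finset.sum_eq_single_of_mem x (Finset.mem_univ _) fun y _ hy => ?_
            rw [hsep, zero_mul]
            intro h
            apply hy
            have : y = -x := by rw [eq_neg_iff_add_eq_zero, add_comm]; exact h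
            rw [this, neg_eq_iff_add_eq_zero]; exact h2 x
        _ = _ := by
            rw [h2 x]
            simp only [map_zero, sg_zero, Finset.sum_const, Finset.card_univ, nsmul_eq_mul, mul_one]
    have h3 : ∑ χ : V →+ ZMod 2, sg (χ x) * ∑ y, sg (χ y) * f y = ∑ y, f y := by
      rw [Finset.sum_eq_single_of_mem (0 : V →+ ZMod 2) (Finset.mem_univ _)]
      · simp [sg_zero]
      · intro χ _ hχ
        rw [hf χ hχ, mul_zero]
    rw [← h1, h3]
  have hc : (Fintype.card (V →+ ZMod 2) : ℝ) ≠ 0 := by
    have : 0 < Fintype.card (V →+ ZMod 2) := Fintype.card_pos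
    exact_mod_cast this.ne'
  have := (inv v).trans (inv v').symm
  exact mul_left_cancel₀ hc this

end Pool.Agent.Helper55.PC
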