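import Pool.Agent.Helper55.PC.Base

/-!
# Block B14 of the pre-cutoff counterexample: a universal pattern
-/

namespace Pool.Agent.Helper55.PC

open Finset
open scoped Classical

namespace B14

/-- the letter of a generator -/
noncomputable def lett {R : Type} (s x : R) : Slot := if x = s then (4, true) else (5, true)

lemma rstep_lett {R : Type} [Group R] {s q x : R} (hx : x = s ∨ x = q) (ρ : R) :
    rstep s q (lett s x) ρ = ρ * x := by
  unfold lett rstep
  by_cases h : x = s
  · simp [h]
  · have hq : x = q := hx.resolve_left h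
    have h54 : ((5 : Fin 7), true) ≠ (4, true) := by decide
    rw [if_neg h, if_neg h54, if_pos rfl, hq]

lemma rstep_three {R : Type} [Group R] (s q ρ : R) {a : Slot} (ha : a.1 = 3) :
    rstep s q a ρ = ρ := by
  unfold rstep
  have h4 : a ≠ (4, true) := fun h => by rw [h] at ha; exact absurd ha (by decide)
  have h5 : a ≠ (5, true) := fun h => by rw [h] at ha; exact absurd ha (by decide)
  have h6 : a ≠ (6, true) := fun h => by rw [h] at ha; exact absurd ha (by decide)
  rw [if_neg h4, if_neg h5, if_neg h6]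

lemma mv_zero {a : Slot} (h0 : a.1 ≠ 0) (h1 : a.1 ≠ 1) : mv a = 0 := by
  unfold mv
  have e0 : a ≠ (0, true) := fun h => h0 (by rw [h])
  have e1 : a ≠ (1, true) := fun h => h1 (by rw [h])
  rw [if_neg e0, if_neg e1]

lemma exists_word {R : Type} [Group R] [Finite R] (s q : R)
    (hgen : Subgroup.closure {s, q} = ⊤) (x : R) :
    ∃ l : List R, (∀ y ∈ l, y = s ∨ y = q) ∧ l.prod = x := by
  have h1 : x ∈ (Subgroup.closure ({s, q} : Set R)).toSubmonoid := by
    rw [hgen]; trivial
  rw [Subgroup.closure_toSubmonoid_of_finite] at h1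
  obtain ⟨l, hl, hp⟩ := Submonoid.exists_list_of_mem_closure h1
  exact ⟨l, fun y hy => by simpa using hl y hy, hp⟩

lemma exists_tour {R : Type} [Group R] [Finite R] (s q : R)
    (hgen : Subgroup.closure {s, q} = ⊤) (L : List R) :
    ∃ l : List R, (∀ y ∈ l, y = s ∨ y = q) ∧ ∀ c ∈ L, ∃ j ≤ l.length, (l.take j).prod = c := by
  induction L with
  | nil => exact ⟨[], by simp, by simp⟩
  | cons c L ih =>
    obtain ⟨l, hl, hc⟩ := ih
    obtain ⟨h, hh, hp⟩ := exists_word s q hgen (l.prod⁻¹ * c)
    refine ⟨l ++ h, ?_, ?_⟩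
    · intro y hy
      rcases List.mem_append.1 hy with h1 | h1
      · exact hl y h1
      · exact hh y h1
    · intro c' hc'
      rcases List.mem_cons.1 hc' with h1 | h1
      · subst h1
        refine ⟨(l ++ h).length, le_rfl, ?_⟩
        rw [List.take_length, List.prod_append, hp]
        group
      · obtain ⟨j, hj, hj2⟩ := hc c' h1
        refine ⟨j, by rw [List.length_append]; omega, ?_⟩
        rw [List.take_append_of_le_length hj, hj2]

/-- the pattern of a list of generators -/
noncomputable def pat {R : Type} (s : R) (l : List R) : Pat where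
  n := 2 * l.length + 1
  P := fun i a => if i % 2 = 0 then a.1 = 3 else a = lett s (l.getD (i / 2) s)
  pos := by omega
  ex := by
    intro i _
    by_cases h : i % 2 = 0
    · exact ⟨(3, true), by simp [h]⟩
    · exact ⟨lett s (l.getD (i / 2) s), by simp [h]⟩
  still := by
    intro i _ a ha
    by_cases h : i % 2 = 0
    · rw [if_pos h] at ha
      exact mv_zero (by rw [ha]; decide) (by rw [ha]; decide)
    · rw [if_neg h] at ha
      rw [ha]
      unfold lett
      split_ifs
      · exact mv_zero (by decide) (by decide)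
      · exact mv_zero (by decide) (by decide)

end B14

open B14 in
theorem universal_pat2 {R : Type} [Group R] [Finite R] (s q : R)
    (hgen : Subgroup.closure {s, q} = ⊤) :
    ∃ W : Pat, (∀ i < W.n, ∀ a, W.P i a → a.1 ≠ 2) ∧
      (∀ i < W.n, ∀ b b' : Bool, W.P i (3, b) → W.P i (3, b')) ∧
      ∀ (w : ℕ → Slot) (σ : ℕ) (ρ0 : R), W.occ w σ → ∀ a : R,
        ∃ s', σ ≤ s' ∧ s' < σ + W.n ∧ (w s').1 = 3 ∧ run (rstep s q) ρ0 w s' = a := by
  have hfin : Fintype R := Fintype.ofFinite R
  obtain ⟨l, hl, hcov⟩ := exists_tour s q hgen (Finset.univ : Finset R).toList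
  refine ⟨pat s l, ?_, ?_, ?_⟩
  · intro i _ a ha
    have ha' : if i % 2 = 0 then a.1 = 3 else a = lett s (l.getD (i / 2) s) := ha
    by_cases h : i % 2 = 0
    · rw [if_pos h] at ha'
      rw [ha']; decide
    · rw [if_neg h] at ha'
      rw [ha']
      unfold lett
      split_ifs <;> decide
  · intro i _ b b' hb
    have hb' : if i % 2 = 0 then ((3 : Fin 7), b).1 = 3 else ((3 : Fin 7), b) = lett s (l.getD (i / 2) s) := hb
    show if i % 2 = 0 then ((3 : Fin 7), b').1 = 3 else ((3 : Fin 7), b') = lett s (l.getD (i / 2) s)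
    by_cases h : i % 2 = 0
    · rw [if_pos h]
    · rw [if_neg h] at hb'
      exfalso
      have no34 : ∀ c : Bool, ¬ ((((3 : Fin 7), c) : Slot) = (4, true)) := by decide
      have no35 : ∀ c : Bool, ¬ ((((3 : Fin 7), c) : Slot) = (5, true)) := by decide
      unfold lett at hb'
      split_ifs at hb' with h1
      · exact no34 b hb'
      · exact no35 b hb'
  · intro w σ ρ0 hocc a
    have hocc' : ∀ i < 2 * l.length + 1,
        if i % 2 = 0 then (w (σ + i)).1 = 3 else w (σ + i) = lett s (l.getD (i / 2) s) := hocc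
    have hrun : ∀ j ≤ l.length, run (rstep s q) ρ0 w (σ + 2 * j) =
        run (rstep s q) ρ0 w σ * (l.take j).prod := by
      intro j
      induction j with
      | zero => intro _; simp
      | succ j ih =>
        intro hj
        have hj' : j < l.length := hj
        have e1 : σ + 2 * (j + 1) = (σ + 2 * j) + 1 + 1 := by ring
        rw [e1]
        show rstep s q (w (σ + 2 * j + 1)) (rstep s q (w (σ + 2 * j))
          (run (rstep s q) ρ0 w (σ + 2 * j))) = _
        have h0 := hocc' (2 * j) (by omega)
        rw [if_pos (by omega)] at h0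
        have h1 := hocc' (2 * j + 1) (by omega)
        rw [if_neg (by omega), show (2 * j + 1) / 2 = j by omega] at h1
        rw [rstep_three s q _ h0, ih hj'.le]
        have e2 : σ + 2 * j + 1 = σ + (2 * j + 1) := by ring
        rw [e2, h1]
        have hmem : l.getD j s = s ∨ l.getD j s = q := by
          rw [List.getD_eq_getElem _ _ hj']
          exact hl _ (List.getElem_mem hj')
        rw [rstep_lett hmem, List.getD_eq_getElem _ _ hj', List.take_succ_eq_append_getElem hj',
          List.prod_append]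
        simp [mul_assoc]
    obtain ⟨j, hj, hj2⟩ := hcov ((run (rstep s q) ρ0 w σ)⁻¹ * a) (by simp)
    refine ⟨σ + 2 * j, by omega, ?_, ?_, ?_⟩
    · show σ + 2 * j < σ + (2 * l.length + 1)
      omega
    · have h0 := hocc' (2 * j) (by omega)
      rw [if_pos (by omega)] at h0
      exact h0
    · rw [hrun j hj, hj2]
      group

theorem universal_pat {R : Type} [Group R] [Finite R] (s q : R)
    (hgen : Subgroup.closure {s, q} = ⊤) :
    ∃ W : Pat, (∀ i < W.n, ∀ a, W.P i a → a.1 ≠ 2) ∧
      ∀ (w : ℕ → Slot) (σ : ℕ) (ρ0 : R), W.occ w σ → ∀ a : R,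
        ∃ s', σ ≤ s' ∧ s' < σ + W.n ∧ (w s').1 = 3 ∧ run (rstep s q) ρ0 w s' = a := by
  obtain ⟨W, h1, _, h3⟩ := universal_pat2 s q hgen
  exact ⟨W, h1, h3⟩

end Pool.Agent.Helper55.PC
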